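import Mathlib

/-! From the subspace theorem over the rationals to the finite form of the inequality of Evertse
for sums of units. -/

set_option autoImplicit false

open Filter Finset

namespace Pool.Agent.Lib.US51

/-- the subspace theorem for unimodular integer matrices -/
def Sub : Prop :=
  ∀ (n : ℕ) (S : Finset ℕ) (A0 : Matrix (Fin n) (Fin n) ℤ) (A : ℕ → Matrix (Fin n) (Fin n) ℤ)
    (ε : ℝ), (∀ p ∈ S, p.Prime) → IsUnit A0.det → (∀ p, IsUnit (A p).det) → 0 < ε →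
    ∃ (W : Finset (Fin n → ℤ)) (H : ℝ), (∀ w ∈ W, w ≠ 0) ∧ ∀ x : Fin n → ℤ, H ≤ ‖x‖ →
      (∏ i, |((A0.mulVec x) i : ℝ)|) *
        ∏ p ∈ S, ∏ i, (padicNorm p ((A p).mulVec x i) : ℝ) ≤ ‖x‖ ^ (-ε) →
      ∃ w ∈ W, dotProduct w x = 0

/-- the part of a rational number outside the primes of `S` -/
noncomputable def sf (S : Finset ℕ) (z : ℚ) : ℝ := |(z : ℝ)| * ∏ p ∈ S, (padicNorm p z : ℝ)

variable {S : Finset ℕ}

lemma pn (p : ℕ) (z : ℚ) : (0 : ℝ) ≤ (padicNorm p z : ℝ) := by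
  exact_mod_cast padicNorm.nonneg z

lemma sf_nn (z : ℚ) : 0 ≤ sf S z :=
  mul_nonneg (abs_nonneg _) (prod_nonneg fun p _ => pn p z)

lemma sf_mul (hS : ∀ p ∈ S, p.Prime) (a b : ℚ) : sf S (a * b) = sf S a * sf S b := by
  have : ∏ p ∈ S, (padicNorm p (a * b) : ℝ) =
      (∏ p ∈ S, (padicNorm p a : ℝ)) * ∏ p ∈ S, (padicNorm p b : ℝ) := by
    rw [← prod_mul_distrib]
    refine prod_congr rfl fun p hp => ?_
    have := Fact.mk (hS p hp)
    rw [padicNorm.mul]; push_cast; rfl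
  unfold sf
  rw [this]; push_cast; rw [abs_mul]; ring

lemma sf_one : sf S 1 = 1 := by simp [sf]

lemma sf_neg (a : ℚ) : sf S (-a) = sf S a := by simp [sf, padicNorm.neg]

lemma sf_prime (hS : ∀ p ∈ S, p.Prime) {q : ℕ} (hq : q.Prime) :
    1 ≤ sf S q ∧ (q ∈ S → sf S q = 1) := by
  have := Fact.mk hq
  have h1 : ∀ T : Finset ℕ, T ⊆ S → q ∉ T → ∏ p ∈ T, (padicNorm p q : ℝ) = 1 := by
    intro T hT hqT
    refine prod_eq_one fun p hp => ?_
    have := Fact.mk (hS p (hT hp))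
    rw [padicNorm.padicNorm_of_prime_of_ne (fun h : p = q => hqT (h ▸ hp))]; simp
  have hq0 : (0 : ℝ) < q := by exact_mod_cast hq.pos
  have h2 : q ∈ S → sf S q = 1 := by
    intro h
    unfold sf
    rw [← mul_prod_erase S _ h, h1 _ (erase_subset _ _) (notMem_erase _ _),
      padicNorm.padicNorm_p_of_prime]
    push_cast
    rw [abs_of_pos hq0]; field_simp
  refine ⟨?_, h2⟩
  by_cases h : q ∈ S
  · exact (h2 h).ge
  · unfold sf
    rw [h1 S subset_rfl h]; push_cast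
    rw [abs_of_pos hq0, mul_one]; exact_mod_cast hq.one_le

lemma sf_nat (hS : ∀ p ∈ S, p.Prime) (a : ℕ) (ha : a ≠ 0) :
    1 ≤ sf S a ∧ ((∀ p, p.Prime → p ∣ a → p ∈ S) → sf S a = 1) := by
  induction a using induction_on_primes with
  | zero => exact absurd rfl ha
  | one => simp [sf_one]
  | prime_mul p a hp ih =>
    have ih := ih (right_ne_zero_of_mul ha)
    have h1 := sf_prime hS hp
    push_cast
    rw [sf_mul hS]
    refine ⟨one_le_mul_of_one_le_of_one_le h1.1 ih.1, fun h => ?_⟩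
    rw [h1.2 (h p hp (dvd_mul_right _ _)), ih.2 fun q hq hd => h q hq (hd.mul_left _), mul_one]

lemma sf_abs (z : ℤ) : sf S (z : ℚ) = sf S (z.natAbs : ℕ) := by
  rcases Int.natAbs_eq z with h | h
  · conv_lhs => rw [h]
    simp
  · conv_lhs => rw [h]
    simp [sf_neg]

lemma sf_int (hS : ∀ p ∈ S, p.Prime) {z : ℤ} (hz : z ≠ 0) : 1 ≤ sf S (z : ℚ) := by
  rw [sf_abs]; exact (sf_nat hS _ (Int.natAbs_ne_zero.2 hz)).1

lemma sf_prod (hS : ∀ p ∈ S, p.Prime) {ι : Type*} (s : Finset ι) (f : ι → ℚ) :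
    sf S (∏ i ∈ s, f i) = ∏ i ∈ s, sf S (f i) := by
  classical
  induction s using Finset.induction_on with
  | empty => simp [sf_one]
  | insert j s hj ih => rw [prod_insert hj, prod_insert hj, sf_mul hS, ih]

/-- the coordinates, one of them possibly replaced by the sum of all -/
def fo {ι : Type} [Fintype ι] [DecidableEq ι] (o : Option ι) (x : ι → ℤ) (i : ι) : ℤ :=
  if o = some i then ∑ l, x l else x i

lemma fo_prod {ι : Type} [Fintype ι] [DecidableEq ι] (g : ℤ → ℝ) (j : ι) (x : ι → ℤ) :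
    (∏ i, g (fo (some j) x i)) * g (x j) = g (∑ l, x l) * ∏ i, g (x i) := by
  rw [← mul_prod_erase univ _ (mem_univ j), ← mul_prod_erase univ (fun i => g (x i)) (mem_univ j)]
  have : ∏ i ∈ univ.erase j, g (fo (some j) x i) = ∏ i ∈ univ.erase j, g (x i) :=
    prod_congr rfl fun i hi => by
      have : j ≠ i := (ne_of_mem_erase hi).symm
      simp [fo, this]
  rw [this]; simp only [fo, if_true]; ring

/-- the matrix of `fo` -/
def mo {n : ℕ} (o : Option (Fin n)) : Matrix (Fin n) (Fin n) ℤ :=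
  match o with
  | none => 1
  | some j => (1 : Matrix (Fin n) (Fin n) ℤ).updateRow j fun _ => 1

lemma mo_det {n : ℕ} (o : Option (Fin n)) : IsUnit (mo o).det := by
  cases o with
  | none => simp [mo]
  | some j =>
    have h := Matrix.det_updateRow_sum (1 : Matrix (Fin n) (Fin n) ℤ) j fun _ => 1
    have e : (∑ k, (1 : ℤ) • (1 : Matrix (Fin n) (Fin n) ℤ) k) = fun _ => 1 := by
      funext l; rw [Finset.sum_apply]; simp [Matrix.one_apply]
    rw [e] at h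
    simp only [mo]; rw [h]; simp

lemma mo_vec {n : ℕ} (o : Option (Fin n)) (x : Fin n → ℤ) (i : Fin n) :
    (mo o).mulVec x i = fo o x i := by
  cases o with
  | none => simp [mo, fo]
  | some j =>
    by_cases h : j = i
    · subst h; simp [mo, fo, Matrix.mulVec, dotProduct]
    · have h' : i ≠ j := fun e => h e.symm
      simp [mo, fo, h, Matrix.mulVec, dotProduct, Matrix.updateRow_ne h', Matrix.one_apply]

/-- the product in the subspace theorem -/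
noncomputable def pr {ι : Type} [Fintype ι] [DecidableEq ι] (S : Finset ℕ) (o0 : Option ι)
    (o : ℕ → Option ι) (x : ι → ℤ) : ℝ :=
  (∏ i, |(fo o0 x i : ℝ)|) * ∏ p ∈ S, ∏ i, (padicNorm p (fo (o p) x i) : ℝ)

lemma pr_nn {ι : Type} [Fintype ι] [DecidableEq ι] (o0 : Option ι) (o : ℕ → Option ι)
    (x : ι → ℤ) : 0 ≤ pr S o0 o x :=
  mul_nonneg (prod_nonneg fun _ _ => abs_nonneg _)
    (prod_nonneg fun p _ => prod_nonneg fun _ _ => pn p _)

lemma sub2 (h : Sub) {ι : Type} [Fintype ι] [DecidableEq ι]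
    (hS : ∀ p ∈ S, p.Prime) (o0 : Option ι) (o : ℕ → Option ι) {ε : ℝ} (hε : 0 < ε) :
    ∃ (W : Finset (ι → ℤ)) (H : ℝ), (∀ w ∈ W, w ≠ 0) ∧ ∀ x : ι → ℤ, H ≤ ‖x‖ →
      pr S o0 o x ≤ ‖x‖ ^ (-ε) → ∃ w ∈ W, ∑ i, w i * x i = 0 := by
  classical
  let e := Fintype.equivFin ι
  obtain ⟨W, H, hW, hx⟩ := h _ S (mo (o0.map e)) (fun p => mo ((o p).map e)) ε hS (mo_det _)
    (fun p => mo_det _) hε
  have hf : ∀ (u : Option ι) (x : ι → ℤ) (i : ι), fo (u.map e) (x ∘ e.symm) (e i) = fo u x i := by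
    intro u x i
    have : ∑ l, x (e.symm l) = ∑ l, x l := Equiv.sum_comp e.symm x
    cases u <;> simp [fo, this]
  refine ⟨W.image fun w => w ∘ e, H, ?_, fun x hx0 hp => ?_⟩
  · intro w hw h0
    obtain ⟨v, hv, rfl⟩ := mem_image.1 hw
    refine hW v hv (funext fun i => ?_)
    simpa using congrFun h0 (e.symm i)
  · obtain ⟨w, hw, h0⟩ := hx (x ∘ e.symm) (by rwa [e.symm.surjective.pi_norm_comp]) (by
        rw [e.symm.surjective.pi_norm_comp]
        refine le_of_eq_of_le ?_ hp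
        simp only [mo_vec, pr]
        rw [← Equiv.prod_comp e]
        simp only [hf]
        refine congrArg _ (prod_congr rfl fun p _ => ?_)
        rw [← Equiv.prod_comp e]
        simp only [hf])
    refine ⟨_, mem_image_of_mem _ hw, ?_⟩
    rw [← h0, dotProduct, ← Equiv.sum_comp e]
    simp

lemma sub3 (h : Sub) {ι : Type} [Fintype ι] [DecidableEq ι] (hι : 2 ≤ Fintype.card ι)
    (hS : ∀ p ∈ S, p.Prime) {ε : ℝ} (hε : 0 < ε) (C : ℝ) :
    ∃ W : Set (ι → ℤ), W.Finite ∧ (∀ w ∈ W, w ≠ 0) ∧ ∀ x : ι → ℤ, (∀ i, x i ≠ 0) →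
      ∀ o0 o, pr S o0 o x ≤ C * ‖x‖ ^ (-ε) → ∃ w ∈ W, ∑ i, w i * x i = 0 := by
  classical
  choose W H hW hx using fun (u : Option ι × (S → Option ι)) =>
    sub2 h hS u.1 (fun p => if hp : p ∈ S then u.2 ⟨p, hp⟩ else none) (half_pos hε)
  obtain ⟨a, b, hab⟩ := Fintype.one_lt_card_iff.1 hι
  have ht : ∀ᶠ t : ℝ in atTop, C ≤ t ^ (ε / 2) ∧ ∀ u, H u ≤ t :=
    ((tendsto_rpow_atTop (half_pos hε)).eventually_ge_atTop C).and
      (eventually_all.2 fun u => eventually_ge_atTop (H u))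
  obtain ⟨R, hR⟩ := eventually_atTop.1 ht
  have hfin : {w : ι → ℤ | ∀ i, w i ∈ Set.Icc (-⌈R⌉) ⌈R⌉}.Finite :=
    Set.Finite.pi' fun _ => Set.finite_Icc _ _
  refine ⟨(⋃ u, (W u : Set (ι → ℤ))) ∪ ({w | ∀ i, w i ∈ Set.Icc (-⌈R⌉) ⌈R⌉} \ {0}),
    (Set.finite_iUnion fun u => (W u).finite_toSet).union hfin.sdiff, ?_, fun x hx0 o0 o hp => ?_⟩
  · rintro w (hw | hw)
    · obtain ⟨u, hu⟩ := Set.mem_iUnion.1 hw
      exact hW u w hu
    · exact hw.2
  have hx1 : x ≠ 0 := fun e => hx0 a (congrFun e a)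
  have hpos : 0 < ‖x‖ := norm_pos_iff.2 hx1
  by_cases hb : R ≤ ‖x‖
  · obtain ⟨w, hw, h0⟩ := hx (o0, fun p => o p) x ((hR _ hb).2 _) (by
      have e : pr S o0 (fun p => if _ : p ∈ S then o p else none) x = pr S o0 o x := by
        unfold pr
        refine congrArg _ (prod_congr rfl fun p hp => ?_)
        simp [hp]
      refine (e.trans_le hp).trans ?_
      calc C * ‖x‖ ^ (-ε) ≤ ‖x‖ ^ (ε / 2) * ‖x‖ ^ (-ε) :=
            mul_le_mul_of_nonneg_right (hR _ hb).1 (Real.rpow_nonneg hpos.le _)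
        _ = _ := by rw [← Real.rpow_add hpos]; ring_nf)
    exact ⟨w, Or.inl (Set.mem_iUnion.2 ⟨_, hw⟩), h0⟩
  · have hi : ∀ i, |x i| ≤ ⌈R⌉ := fun i => by
      have h1 : ‖x i‖ ≤ ‖x‖ := norm_le_pi_norm x i
      rw [Int.norm_eq_abs] at h1
      have : ((|x i| : ℤ) : ℝ) ≤ (⌈R⌉ : ℤ) := by
        push_cast; linarith [Int.le_ceil R, not_le.1 hb]
      exact_mod_cast this
    refine ⟨fun i => if i = a then x b else if i = b then -x a else 0, Or.inr ⟨fun i => ?_, ?_⟩, ?_⟩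
    · have := abs_le.1 (hi a); have := abs_le.1 (hi b); have := abs_nonneg (x a); have := hi a
      simp only [Set.mem_Icc]
      split_ifs <;> constructor <;> omega
    · intro e
      exact hx0 b (by simpa using congrFun e a)
    · rw [Fintype.sum_eq_add a b hab]
      · simp [hab.symm]; ring
      · intro i hi; simp [hi.1, hi.2]

/-- clearing denominators -/
lemma scale {ι : Type} (s : Finset ι) (c Y : ι → ℚ) : ∃ x : ι → ℤ, ∀ i ∈ s,
    (x i : ℚ) = (∏ l ∈ s, ((c l).den : ℚ)) * (∏ l ∈ s, ((Y l).den : ℚ)) * (c i * Y i) := by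
  classical
  refine ⟨fun i => (∏ l ∈ s.erase i, ((c l).den : ℤ)) * (∏ l ∈ s.erase i, ((Y l).den : ℤ)) *
    ((c i).num * (Y i).num), fun i hi => ?_⟩
  rw [← mul_prod_erase s _ hi, ← mul_prod_erase s (fun l => ((Y l).den : ℚ)) hi]
  push_cast
  rw [← Rat.den_mul_eq_num, ← Rat.den_mul_eq_num]; ring

/-- a unit outside `S` -/
def Un (S : Finset ℕ) (y : ℚ) : Prop := y ≠ 0 ∧ sf S y = 1 ∧ sf S y.den = 1

lemma scale_sf (hS : ∀ p ∈ S, p.Prime) {ι : Type} {s : Finset ι} (c : ι → ℚ) {Y : ι → ℚ}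
    (hY : ∀ i ∈ s, Un S (Y i)) {i : ι} (hi : i ∈ s) :
    sf S ((∏ l ∈ s, ((c l).den : ℚ)) * (∏ l ∈ s, ((Y l).den : ℚ)) * (c i * Y i)) =
      sf S ((∏ l ∈ s, ((c l).den : ℚ)) * c i) := by
  rw [sf_mul hS, sf_mul hS, sf_mul hS, sf_mul hS, (hY i hi).2.1, sf_prod hS s fun l => (Y l).den,
    prod_eq_one fun l hl => (hY l hl).2.2]
  ring

lemma pr_exact (hS : ∀ p ∈ S, p.Prime) {ι : Type} [Fintype ι] [DecidableEq ι] (x : ι → ℤ) (j0 : ι)
    (j : ℕ → ι) (hj : ∀ p ∈ S, ¬(p : ℤ) ∣ x (j p)) :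
    pr S (some j0) (fun p => some (j p)) x * |(x j0 : ℝ)| =
      sf S ((∑ l, x l : ℤ) : ℚ) * ∏ i, sf S (x i) := by
  have h0 := fo_prod (fun z => |(z : ℝ)|) j0 x
  have h1 : ∏ p ∈ S, ∏ i, (padicNorm p (fo (some (j p)) x i) : ℝ) =
      ∏ p ∈ S, ((padicNorm p ((∑ l, x l : ℤ) : ℚ) : ℝ) * ∏ i, (padicNorm p (x i) : ℝ)) :=
    prod_congr rfl fun p hp => by
      have := Fact.mk (hS p hp)
      have h := fo_prod (fun z => (padicNorm p z : ℝ)) (j p) x
      rwa [(padicNorm.int_eq_one_iff _).2 (hj p hp), Rat.cast_one, mul_one] at h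
  simp only [pr, sf, Rat.cast_intCast]
  rw [h1, mul_right_comm, h0, prod_mul_distrib, prod_mul_distrib, Finset.prod_comm]; ring

lemma pr_inex {ι : Type} [Fintype ι] [DecidableEq ι] (x : ι → ℤ) (j0 : ι) :
    pr S (some j0) (fun _ => none) x * |(x j0 : ℝ)| =
      |((∑ l, x l : ℤ) : ℝ)| * ∏ i, sf S (x i) := by
  have h0 := fo_prod (fun z => |(z : ℝ)|) j0 x
  simp only [pr, sf, Rat.cast_intCast]
  rw [mul_right_comm, h0, prod_mul_distrib, Finset.prod_comm]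
  simp only [fo, reduceCtorEq, if_false]; ring

variable {ι κ : Type} {U : Ultrafilter κ} {Y : κ → ι → ℚ}

lemma den_ne (s : Finset ι) (c : ι → ℚ) : (∏ l ∈ s, ((c l).den : ℚ)) ≠ 0 :=
  prod_ne_zero_iff.2 fun l _ => by exact_mod_cast (c l).den_nz

/-- no linear relation among units with pairwise non-constant ratios -/
lemma exa (h : Sub) (hS : ∀ p ∈ S, p.Prime) (s : Finset ι) :
    (∀ᶠ k in U, ∀ i ∈ s, Un S (Y k i)) →
    (∀ i ∈ s, ∀ j ∈ s, i ≠ j → ∀ r : ℚ, ¬∀ᶠ k in U, Y k i = r * Y k j) →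
    ∀ c : ι → ℚ, (∃ i ∈ s, c i ≠ 0) → ¬∀ᶠ k in U, ∑ i ∈ s, c i * Y k i = 0 := by
  classical
  induction s using Finset.strongInduction with
  | H s ih =>
  intro hY hN c ⟨a, ha, hca⟩ h0
  have ih' : ∀ b ∈ s, ∀ c : ι → ℚ, (∃ i ∈ s.erase b, c i ≠ 0) →
      ¬∀ᶠ k in U, ∑ i ∈ s.erase b, c i * Y k i = 0 := fun b hb =>
    ih _ (erase_ssubset hb) (hY.mono fun k hk i hi => hk i (mem_of_mem_erase hi))
      fun i hi j hj => hN i (mem_of_mem_erase hi) j (mem_of_mem_erase hj)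
  by_cases hc : ∃ b ∈ s, c b = 0
  · obtain ⟨b, hb, hcb⟩ := hc
    refine ih' b hb c ⟨a, mem_erase.2 ⟨fun e => hca (e ▸ hcb), ha⟩, hca⟩ (h0.mono fun k hk => ?_)
    rwa [← add_sum_erase s _ hb, hcb, zero_mul, zero_add] at hk
  push Not at hc
  have h1 : ∀ᶠ k in U, ∑ i ∈ s.erase a, c i * Y k i = -(c a * Y k a) := h0.mono fun k hk => by
    rw [← add_sum_erase s _ ha] at hk; linarith
  by_cases h2 : (s.erase a).card ≤ 1
  · rcases Nat.le_one_iff_eq_zero_or_eq_one.1 h2 with e | e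
    on_goal 1 => rw [card_eq_zero] at e
    on_goal 2 => obtain ⟨b, e⟩ := card_eq_one.1 e
    · obtain ⟨k, hk, hk'⟩ := (h1.and hY).exists
      rw [e, sum_empty] at hk
      exact mul_ne_zero hca (hk' a ha).1 (by linarith)
    · have hb : b ∈ s.erase a := e ▸ mem_singleton_self b
      refine hN a ha b (mem_of_mem_erase hb) (ne_of_mem_erase hb).symm (-c b / c a)
        (h1.mono fun k hk => ?_)
      rw [e, sum_singleton] at hk
      field_simp; linarith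
  set t := s.erase a with ht
  set d := ∏ l ∈ s, ((c l).den : ℚ) with hd
  have hι : 2 ≤ Fintype.card t := by rw [Fintype.card_coe]; omega
  obtain ⟨W, hWf, hW, hx⟩ := sub3 (ι := t) h hι hS one_pos
    (sf S (d * c a) * ∏ i : t, sf S (d * c i))
  have key : ∀ᶠ k in U, ∃ w ∈ W, ∑ i : t, (w i : ℚ) * (c i * Y k i) = 0 := by
    filter_upwards [h1, hY] with k hk hu
    obtain ⟨x, hxe⟩ := scale s c (Y k)
    set P := ∏ l ∈ s, ((Y k l).den : ℚ) with hP
    have hD : d * P ≠ 0 := mul_ne_zero (den_ne _ _) (den_ne _ _)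
    have hx0 : ∀ i ∈ s, x i ≠ 0 := fun i hi e => by
      have := hxe i hi
      rw [e, Int.cast_zero] at this
      exact mul_ne_zero hD (mul_ne_zero (hc i hi) (hu i hi).1) this.symm
    have hsf : ∀ i ∈ s, sf S (x i) = sf S (d * c i) := fun i hi => by
      rw [hxe i hi]; exact scale_sf hS c hu hi
    have hne : Nonempty t := Fintype.card_pos_iff.1 (by omega)
    obtain ⟨v, hv, hg⟩ := extract_gcd (s := (univ : Finset t)) (fun i => x i) univ_nonempty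
    set g := (univ : Finset t).gcd fun i => x i
    have hv : ∀ i : t, x i = g * v i := fun i => hv i (mem_univ i)
    have hm : ∀ i : t, (i : ι) ∈ s := fun i => mem_of_mem_erase i.2
    have hg0 : g ≠ 0 := fun e => hx0 _ (hm hne.some) (by rw [hv, e, zero_mul])
    have hv0 : ∀ i, v i ≠ 0 := fun i e => hx0 _ (hm i) (by rw [hv, e, mul_zero])
    have hle : ∀ z u : ℤ, u = g * z → sf S z ≤ sf S u := fun z u e => by
      rw [e]; push_cast; rw [sf_mul hS]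
      exact le_mul_of_one_le_left (sf_nn _) (sf_int hS hg0)
    have hsum : -x a = g * ∑ i, v i := by
      have : ((-x a : ℤ) : ℚ) = ∑ i : t, (x i : ℚ) := by
        rw [sum_coe_sort t fun i => (x i : ℚ), sum_congr rfl fun i hi => hxe i (mem_of_mem_erase hi),
          ← mul_sum, hk]
        push_cast; rw [hxe a ha]; ring
      rw [mul_sum, ← sum_congr rfl fun i _ => hv i]
      exact_mod_cast this
    have hj : ∀ p : ℕ, ∃ j, p ∈ S → ¬(p : ℤ) ∣ v j := fun p => by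
      by_contra hn
      push Not at hn
      have : (p : ℤ) ∣ 1 := hg ▸ dvd_gcd fun j _ => (hn j).2
      exact (hS p (hn hne.some).1).one_lt.ne' (by exact_mod_cast Int.eq_one_of_dvd_one (by simp) this)
    choose j hj using hj
    obtain ⟨j0, -, hj0⟩ := exists_max_image univ (fun i => ‖v i‖) univ_nonempty
    have hn : ‖v‖ ≤ |(v j0 : ℝ)| := (pi_norm_le_iff_of_nonneg (abs_nonneg _)).2 fun i =>
      (hj0 i (mem_univ i)).trans_eq (Int.norm_eq_abs _)
    have hvp : 0 < ‖v‖ := norm_pos_iff.2 fun e => hv0 j0 (congrFun e j0)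
    obtain ⟨w, hw, h0⟩ := hx v hv0 (some j0) (fun p => some (j p)) (by
      rw [Real.rpow_neg_one, ← div_eq_mul_inv, le_div_iff₀ hvp]
      refine (mul_le_mul_of_nonneg_left hn (pr_nn _ _ _)).trans ?_
      rw [pr_exact hS v j0 j fun p hp => hj p hp]
      refine mul_le_mul ?_ (prod_le_prod (fun i _ => sf_nn _) fun i _ => ?_)
        (prod_nonneg fun i _ => sf_nn _) (sf_nn _)
      · refine (hle _ _ hsum).trans_eq ?_
        push_cast; rw [sf_neg, hsf a ha]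
      · exact (hle _ _ (hv i)).trans_eq (hsf _ (hm i)))
    refine ⟨w, hw, mul_left_cancel₀ hD ?_⟩
    have : ∑ i : t, (w i : ℚ) * (x i : ℚ) = 0 := by
      have : ∑ i : t, w i * x i = g * ∑ i : t, w i * v i := by
        rw [mul_sum]; exact sum_congr rfl fun i _ => by rw [hv]; ring
      rw [h0, mul_zero] at this
      exact_mod_cast this
    rw [mul_zero, mul_sum, ← this]
    exact sum_congr rfl fun i _ => by rw [hxe _ (hm i)]; ring
  obtain ⟨w, hw, hk⟩ := (U.eventually_exists_mem_iff hWf).1 key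
  obtain ⟨b, hb⟩ := Function.ne_iff.1 (hW w hw)
  refine ih' a ha (fun i => if hi : i ∈ t then (w ⟨i, hi⟩ : ℚ) * c i else 0) ⟨b, b.2, ?_⟩
    (hk.mono fun k hk => ?_)
  · simp only [b.2, dif_pos]
    exact mul_ne_zero (by exact_mod_cast hb) (hc _ (mem_of_mem_erase b.2))
  · rw [← hk, ← sum_coe_sort t]
    exact sum_congr rfl fun i _ => by simp only [i.2, dif_pos]; ring

/-- no very small sum of units with pairwise non-constant ratios -/
lemma inex (h : Sub) (hS : ∀ p ∈ S, p.Prime) (T : Finset ι) {Z : κ → ℝ}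
    (hZ : Tendsto Z U atTop) {ε : ℝ} (hε : 0 < ε)
    (hY : ∀ᶠ k in U, ∀ i ∈ T, Un S (Y k i) ∧ |(Y k i : ℝ)| ≤ Z k ∧ ((Y k i).den : ℝ) ≤ Z k)
    (hN : ∀ i ∈ T, ∀ j ∈ T, i ≠ j → ∀ r : ℚ, ¬∀ᶠ k in U, Y k i = r * Y k j)
    (c : ι → ℚ) {a : ι} (ha : a ∈ T) (hca : c a ≠ 0) :
    ¬∀ᶠ k in U, |((∑ i ∈ T, c i * Y k i : ℚ) : ℝ)| ≤ Z k ^ (-ε) * |(Y k a : ℝ)| := by
  classical
  intro h0
  set s := T.filter fun i => c i ≠ 0 with hs
  have hsT : ∀ i ∈ s, i ∈ T := fun i hi => (mem_filter.1 hi).1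
  have hc : ∀ i ∈ s, c i ≠ 0 := fun i hi => (mem_filter.1 hi).2
  have has : a ∈ s := mem_filter.2 ⟨ha, hca⟩
  have hsum : ∀ k, ∑ i ∈ T, c i * Y k i = ∑ i ∈ s, c i * Y k i := fun k =>
    (sum_filter_of_ne fun i _ e => left_ne_zero_of_mul e).symm
  simp only [hsum] at h0
  have hca' : (0 : ℝ) < |(c a : ℝ)| := abs_pos.2 (by exact_mod_cast hca)
  by_cases h2 : s.card ≤ 1
  · have e : s = {a} := eq_singleton_iff_unique_mem.2 ⟨has, fun i hi => card_le_one.1 h2 i hi a has⟩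
    have h3 : ∀ᶠ k in U, Z k ^ (-ε) < |(c a : ℝ)| :=
      ((tendsto_rpow_neg_atTop hε).comp hZ).eventually_lt_const hca'
    obtain ⟨k, ⟨hk, hu⟩, hk'⟩ := ((h0.and hY).and h3).exists
    have : (0 : ℝ) < |(Y k a : ℝ)| := abs_pos.2 (by exact_mod_cast (hu a ha).1.1)
    rw [e, sum_singleton] at hk
    push_cast at hk
    rw [abs_mul] at hk
    exact absurd (le_of_mul_le_mul_right hk this) (not_le.2 hk')
  set d := ∏ l ∈ s, ((c l).den : ℚ) with hd
  have hι : 2 ≤ Fintype.card s := by rw [Fintype.card_coe]; omega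
  set B : ℝ := |(d : ℝ)| * ∑ i ∈ s, |(c i : ℝ)| + 1 with hB
  have hB0 : 0 < B := by positivity
  set m : ℝ := ((s.card + 1 : ℕ) : ℝ) with hm
  have hm0 : 0 < m := by positivity
  obtain ⟨W, hWf, hW, hx⟩ := sub3 (ι := s) h hι hS (div_pos hε hm0)
    ((∏ i : s, sf S (d * c i)) / |(c a : ℝ)| * B ^ (ε / m))
  have key : ∀ᶠ k in U, ∃ w ∈ W, ∑ i : s, (w i : ℚ) * (c i * Y k i) = 0 := by
    filter_upwards [h0, hY, hZ.eventually_ge_atTop 1] with k hk hu hZ1
    obtain ⟨x, hxe⟩ := scale s c (Y k)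
    set P := ∏ l ∈ s, ((Y k l).den : ℚ) with hP
    have hD : d * P ≠ 0 := mul_ne_zero (den_ne _ _) (den_ne _ _)
    have hx0 : ∀ i ∈ s, x i ≠ 0 := fun i hi e => by
      have := hxe i hi
      rw [e, Int.cast_zero] at this
      exact mul_ne_zero hD (mul_ne_zero (hc i hi) (hu i (hsT i hi)).1.1) this.symm
    have hsf : ∀ i ∈ s, sf S (x i) = sf S (d * c i) := fun i hi => by
      rw [hxe i hi]; exact scale_sf hS c (fun l hl => (hu l (hsT l hl)).1) hi
    have hxr : ∀ i ∈ s, |(x i : ℝ)| = |(d : ℝ)| * |(P : ℝ)| * (|(c i : ℝ)| * |(Y k i : ℝ)|) :=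
      fun i hi => by
        have : ((x i : ℚ) : ℝ) = ((d * P * (c i * Y k i) : ℚ) : ℝ) := congrArg _ (hxe i hi)
        push_cast at this
        rw [this, abs_mul, abs_mul, abs_mul]
    have hPZ : |(P : ℝ)| ≤ Z k ^ s.card := by
      rw [hP]; push_cast
      rw [abs_of_nonneg (prod_nonneg fun _ _ => Nat.cast_nonneg _)]
      rw [← prod_const]
      exact prod_le_prod (fun _ _ => Nat.cast_nonneg _) fun l hl => (hu l (hsT l hl)).2.2
    set v : s → ℤ := fun i => x i with hv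
    have hn : ‖v‖ ≤ B * Z k ^ (s.card + 1) :=
      (pi_norm_le_iff_of_nonneg (by positivity)).2 fun i => by
        rw [Int.norm_eq_abs, hxr _ i.2]
        have h1 : |(c i : ℝ)| ≤ ∑ l ∈ s, |(c l : ℝ)| :=
          single_le_sum (f := fun l => |(c l : ℝ)|) (fun _ _ => abs_nonneg _) i.2
        have h3 := (hu _ (hsT _ i.2)).2.1
        calc _ ≤ |(d : ℝ)| * Z k ^ s.card * ((∑ l ∈ s, |(c l : ℝ)|) * Z k) := by gcongr
          _ = (|(d : ℝ)| * ∑ l ∈ s, |(c l : ℝ)|) * Z k ^ (s.card + 1) := by ring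
          _ ≤ _ := by gcongr; linarith
    have hvp : 0 < ‖v‖ := norm_pos_iff.2 fun e => hx0 a has (congrFun e ⟨a, has⟩)
    have hZe : Z k ^ (-ε) ≤ B ^ (ε / m) * ‖v‖ ^ (-(ε / m)) := by
      have h1 : (B * Z k ^ (s.card + 1)) ^ (-(ε / m)) ≤ ‖v‖ ^ (-(ε / m)) :=
        Real.rpow_le_rpow_of_nonpos hvp hn (neg_nonpos.2 (div_pos hε hm0).le)
      rw [Real.mul_rpow hB0.le (by positivity), ← Real.rpow_natCast,
        ← Real.rpow_mul (by linarith), ← hm, show m * -(ε / m) = -ε by field_simp] at h1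
      calc _ = B ^ (ε / m) * (B ^ (-(ε / m)) * Z k ^ (-ε)) := by
            rw [← mul_assoc, ← Real.rpow_add hB0]; simp
        _ ≤ _ := mul_le_mul_of_nonneg_left h1 (by positivity)
    have hsx : |((∑ l, v l : ℤ) : ℝ)| * |(c a : ℝ)| ≤ Z k ^ (-ε) * |(x a : ℝ)| := by
      have : ((∑ l, v l : ℤ) : ℚ) = d * P * ∑ i ∈ s, c i * Y k i := by
        push_cast
        rw [sum_coe_sort s fun i => (x i : ℚ), sum_congr rfl hxe, ← mul_sum]
      have : (((∑ l, v l : ℤ) : ℚ) : ℝ) = (d : ℝ) * P * ((∑ i ∈ s, c i * Y k i : ℚ) : ℝ) := by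
        rw [this, Rat.cast_mul, Rat.cast_mul]
      rw [Rat.cast_intCast] at this
      rw [this, abs_mul, abs_mul, hxr a has]
      calc _ ≤ |(d : ℝ)| * |(P : ℝ)| * (Z k ^ (-ε) * |(Y k a : ℝ)|) * |(c a : ℝ)| := by gcongr
        _ = _ := by ring
    obtain ⟨w, hw, h0⟩ := hx v (fun i => hx0 _ i.2) (some ⟨a, has⟩) (fun _ => none) (by
      have hxa : (0 : ℝ) < |(x a : ℝ)| := abs_pos.2 (by exact_mod_cast hx0 a has)
      have e := pr_inex (S := S) v ⟨a, has⟩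
      rw [show ∏ i : s, sf S (v i) = ∏ i : s, sf S (d * c i) from
        prod_congr rfl fun i _ => hsf _ i.2] at e
      have hQ : 0 ≤ ∏ i : s, sf S (d * c i) := prod_nonneg fun _ _ => sf_nn _
      refine le_of_mul_le_mul_right (e.trans_le ?_) hxa
      rw [← le_div_iff₀ hca'] at hsx
      calc _ ≤ Z k ^ (-ε) * |(x a : ℝ)| / |(c a : ℝ)| * ∏ i : s, sf S (d * c i) := by gcongr
        _ ≤ B ^ (ε / m) * ‖v‖ ^ (-(ε / m)) * |(x a : ℝ)| / |(c a : ℝ)| *
            ∏ i : s, sf S (d * c i) := by gcongr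
        _ = _ := by ring)
    refine ⟨w, hw, mul_left_cancel₀ hD ?_⟩
    have : ∑ i : s, (w i : ℚ) * (x i : ℚ) = 0 := by exact_mod_cast h0
    rw [mul_zero, mul_sum, ← this]
    exact sum_congr rfl fun i _ => by rw [hxe _ i.2]; ring
  obtain ⟨w, hw, hk⟩ := (U.eventually_exists_mem_iff hWf).1 key
  obtain ⟨b, hb⟩ := Function.ne_iff.1 (hW w hw)
  refine exa h hS s (hY.mono fun k hk i hi => (hk i (hsT i hi)).1)
    (fun i hi j hj => hN i (hsT i hi) j (hsT j hj))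
    (fun i => if hi : i ∈ s then (w ⟨i, hi⟩ : ℚ) * c i else 0) ⟨b, b.2, ?_⟩
    (hk.mono fun k hk => ?_)
  · simp only [b.2, dif_pos]
    exact mul_ne_zero (by exact_mod_cast hb) (hc _ b.2)
  · rw [← hk, ← sum_coe_sort s]
    exact sum_congr rfl fun i _ => by simp only [i.2, dif_pos]; ring

/-- smooth and of bounded height -/
def Ok (M : ℕ) (Z : ℝ) (y : ℚ) : Prop :=
  y ≠ 0 ∧ (∀ p : ℕ, p.Prime → p ∣ y.num.natAbs * y.den → p ≤ M) ∧ (y.num.natAbs : ℝ) ≤ Z ∧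
    (y.den : ℝ) ≤ Z

lemma ok_un {M : ℕ} {Z : ℝ} {y : ℚ} (h : Ok M Z y) :
    Un ((range (M + 1)).filter Nat.Prime) y ∧ |(y : ℝ)| ≤ Z ∧ (y.den : ℝ) ≤ Z := by
  obtain ⟨h0, h1, h2, h3⟩ := h
  have hS : ∀ p ∈ (range (M + 1)).filter Nat.Prime, p.Prime := fun p hp => (mem_filter.1 hp).2
  have hm : ∀ p : ℕ, p.Prime → p ∣ y.num.natAbs * y.den → p ∈ (range (M + 1)).filter Nat.Prime :=
    fun p hp hd => mem_filter.2 ⟨mem_range.2 (Nat.lt_succ_of_le (h1 p hp hd)), hp⟩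
  have hd := (sf_nat hS y.den y.den_nz).2 fun p hp hd => hm p hp (hd.mul_left _)
  have hn := (sf_nat hS y.num.natAbs (Int.natAbs_ne_zero.2 (Rat.num_ne_zero.2 h0))).2
    fun p hp hd => hm p hp (hd.mul_right _)
  rw [← sf_abs, ← Rat.mul_den_eq_num, sf_mul hS, hd, mul_one] at hn
  refine ⟨⟨h0, hn, hd⟩, le_trans ?_ h2, h3⟩
  have e : (y : ℝ) * y.den = y.num := by exact_mod_cast congrArg (Rat.cast : ℚ → ℝ) y.mul_den_eq_num
  have h1 : (1 : ℝ) ≤ y.den := by exact_mod_cast y.pos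
  rw [Nat.cast_natAbs, Int.cast_abs, ← e, abs_mul, abs_of_nonneg (by linarith : (0 : ℝ) ≤ y.den)]
  exact le_mul_of_one_le_right (abs_nonneg _) h1

lemma ev_fin (h : Sub) (M n : ℕ) {ε : ℝ} (hε : 0 < ε) : ∃ (F : Finset ℚ) (Z0 : ℝ),
    ∀ (Z : ℝ) (s : Finset (Fin n)) (y : Fin n → ℚ) (i0 : Fin n), Z0 ≤ Z → i0 ∈ s →
      (∀ i ∈ s, Ok M Z (y i)) → |((∑ i ∈ s, y i : ℚ) : ℝ)| ≤ Z ^ (-ε) * |(y i0 : ℝ)| →
      ∃ i ∈ s, y i * y i0 < 0 ∧ y i / y i0 ∈ F := by
  classical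
  by_contra hc
  push Not at hc
  obtain ⟨g, hg⟩ := exists_surjective_nat ℚ
  choose Z s' Y a' hZ ha hY h0 hF using fun k : ℕ => hc ((range k).image g) k
  let U : Ultrafilter ℕ := Ultrafilter.of atTop
  have hU : (U : Filter ℕ) ≤ atTop := Ultrafilter.of_le _
  obtain ⟨⟨s, a⟩, hsa⟩ := (U.eventually_exists_iff
    (P := fun (u : Finset (Fin n) × Fin n) k => s' k = u.1 ∧ a' k = u.2)).1
    (Eventually.of_forall fun k => ⟨(s' k, a' k), rfl, rfl⟩)
  replace hsa : ∀ᶠ k in U, s' k = s ∧ a' k = a := hsa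
  have has : a ∈ s := by
    obtain ⟨k, h1, h2⟩ := hsa.exists
    rw [← h1, ← h2]; exact ha k
  have hY' : ∀ᶠ k in U, ∀ i ∈ s, Ok M (Z k) (Y k i) := hsa.mono fun k hk => by
    rw [← hk.1]; exact hY k
  have hpos : ∀ i ∈ s, ∀ r : ℚ, (∀ᶠ k in U, Y k i = r * Y k a) → 0 < r := by
    intro i hi r hr
    obtain ⟨N, hN⟩ := hg r
    obtain ⟨k, ⟨⟨h1, h2⟩, h3, h4⟩, h5⟩ := (((hr.and hY').and hsa).and
      (hU (eventually_gt_atTop N))).exists
    have h6 := hF k i (by rw [h3]; exact hi)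
    rw [h4, h1, mul_div_cancel_right₀ _ (h2 a has).1] at h6
    have hr0 : r ≠ 0 := fun e => (h2 i hi).1 (by rw [h1, e, zero_mul])
    by_contra hn
    refine h6 ?_ (mem_image.2 ⟨_, mem_range.2 h5, hN⟩)
    rw [mul_assoc]
    exact mul_neg_of_neg_of_pos (lt_of_le_of_ne (not_lt.1 hn) hr0)
      (mul_self_pos.2 (h2 a has).1)
  obtain ⟨T, hT, hmax⟩ := exists_max_image (s.powerset.filter fun T => a ∈ T ∧
    ∀ i ∈ T, ∀ j ∈ T, i ≠ j → ∀ r : ℚ, ¬∀ᶠ k in U, Y k i = r * Y k j) card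
    ⟨{a}, by simp [has]⟩
  obtain ⟨hTs, haT, hN⟩ : T ⊆ s ∧ a ∈ T ∧ _ := by simpa only [mem_filter, mem_powerset] using hT
  have hrep : ∀ i, ∃ (j : Fin n) (r : ℚ), i ∈ s → j ∈ T ∧ (i = a → j = a) ∧
      ∀ᶠ k in U, Y k i = r * Y k j := by
    intro i
    by_cases hi : i ∈ T
    · exact ⟨i, 1, fun _ => ⟨hi, id, Eventually.of_forall fun k => (one_mul _).symm⟩⟩
    by_contra hn
    have his : i ∈ s := by_contra fun e => hn ⟨a, 0, fun e' => absurd e' e⟩
    have hia : ∀ j, i = a → j = a := fun j e => absurd (e ▸ haT) hi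
    have h1 : ∀ j ∈ T, ∀ r : ℚ, ¬∀ᶠ k in U, Y k i = r * Y k j := fun j hj r e =>
      hn ⟨j, r, fun _ => ⟨hj, hia j, e⟩⟩
    have := hmax (insert i T) (mem_filter.2 ⟨mem_powerset.2 (insert_subset his hTs),
      mem_insert_of_mem haT, fun u hu j hj huj r e => ?_⟩)
    · rw [card_insert_of_notMem hi] at this; omega
    rcases mem_insert.1 hu with e1 | hu' <;> rcases mem_insert.1 hj with e2 | hj'
    · exact huj (e1.trans e2.symm)
    · exact h1 j hj' r (by rw [← e1]; exact e)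
    · refine h1 u hu' r⁻¹ ((e.and hY').mono fun k hk => ?_)
      have hr0 : r ≠ 0 := fun e => (hk.2 u (hTs hu')).1 (by rw [hk.1, e, zero_mul])
      rw [hk.1, e2]; field_simp
    · exact hN u hu' j hj' huj r e
  choose f r hf using hrep
  have hall : ∀ᶠ k in U, ∀ i ∈ s, Y k i = r i * Y k (f i) :=
    (eventually_all_finset s).2 fun i hi => (hf i hi).2.2
  refine inex (U := U) (Y := Y) (Z := Z) h (fun p hp => (mem_filter.1 hp).2) T
    (tendsto_atTop_mono hZ (tendsto_natCast_atTop_atTop.mono_left hU)) hε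
    (hY'.mono fun k hk i hi => ok_un (hk i (hTs hi))) hN
    (fun j => ∑ i ∈ s.filter fun i => f i = j, r i) haT (ne_of_gt (sum_pos (fun i hi => ?_)
      ⟨a, mem_filter.2 ⟨has, (hf a has).2.1 rfl⟩⟩)) ?_
  · obtain ⟨h1, h2⟩ := mem_filter.1 hi
    exact hpos i h1 _ (h2 ▸ (hf i h1).2.2)
  · filter_upwards [hall, hsa] with k hk hk'
    have := h0 k
    rw [hk'.1, hk'.2, sum_congr rfl hk,
      ← sum_fiberwise_of_maps_to fun i hi => (hf i hi).1] at this
    refine le_of_eq_of_le (congrArg _ (congrArg _ (sum_congr rfl fun j _ => ?_))) this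
    rw [sum_mul]
    exact sum_congr rfl fun i hi => by rw [(mem_filter.1 hi).2]

/-- the finite form of the inequality of Evertse -/
def Ev : Prop :=
  ∀ (M n : ℕ) (ε : ℝ), 0 < ε → ∃ (F : Finset ℚ) (Z0 : ℝ),
    ∀ (Z : ℝ) (ι : Type) (s : Finset ι) (y : ι → ℚ) (i0 : ι), Z0 ≤ Z → s.card ≤ n → i0 ∈ s →
      (∀ i ∈ s, y i ≠ 0 ∧ (∀ p : ℕ, p.Prime → p ∣ (y i).num.natAbs * (y i).den → p ≤ M) ∧
        ((y i).num.natAbs : ℝ) ≤ Z ∧ ((y i).den : ℝ) ≤ Z) →
      |((∑ i ∈ s, y i : ℚ) : ℝ)| ≤ Z ^ (-ε) * |(y i0 : ℝ)| →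
      ∃ i ∈ s, y i * y i0 < 0 ∧ y i / y i0 ∈ F

theorem ev (h : Sub) : Ev := by
  classical
  intro M n ε hε
  obtain ⟨F, Z0, hF⟩ := ev_fin h M n hε
  refine ⟨F, Z0, fun Z ι s y i0 hZ hn hi hy h0 => ?_⟩
  obtain ⟨e⟩ : Nonempty (s ↪ Fin n) := Function.Embedding.nonempty_of_card_le (by simpa using hn)
  have he : ∀ i : s, Function.extend e (fun i => y i) 0 (e i) = y i :=
    e.injective.extend_apply _ _
  obtain ⟨j, hj, h1⟩ := hF Z (univ.map e) (Function.extend e (fun i => y i) 0) (e ⟨i0, hi⟩) hZ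
    (mem_map_of_mem _ (mem_univ _)) (fun j hj => by
      obtain ⟨i, -, rfl⟩ := mem_map.1 hj
      rw [he]; exact hy i i.2) (by
      rw [sum_map]
      simp only [he]
      rwa [sum_coe_sort s y])
  obtain ⟨i, -, rfl⟩ := mem_map.1 hj
  rw [he, he] at h1
  exact ⟨i, i.2, h1⟩

end Pool.Agent.Lib.US51
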